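import Pool.Agent.N179.GR.Defs

/-!
# The regulator onto the Hodge classes and independent families: definitions
-/

set_option autoImplicit false

open TensorProduct

universe u

namespace Pool.Agent.N179.RG

open Pool.Agent.TH125.Gal Pool.Agent.N179.GR.S
open Pool.Agent.H914 Pool.Agent.H914.VarClass Pool.Agent.H914.VarClass.Obj
  Pool.Agent.H914.WeilCohomology

section Alg

/-- The characters of `Γ` with values in `K`. -/
abbrev Chr (K : Type) [Field K] (Γ : Type) [Group Γ] : Type := Γ →* Kˣ

/-- The linear actions of the group `Γ` on the vector space `M`. -/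
abbrev LinAct (K : Type) [Field K] (M : Type) [AddCommGroup M] [Module K M] (Γ : Type)
    [Group Γ] : Type := Γ →* (M →ₗ[K] M)

/-- The families of subsets of `A ⊗ M`, indexed by degrees `m` and twists `r`. -/
abbrev Fam (K : Type) [Field K] (A : Type) [Ring A] [Algebra K A] (M : Type)
    [AddCommGroup M] [Module K M] : Type := ℕ → ℤ → Set (A ⊗[K] M)

variable {K : Type} [Field K] {A : Type} [Ring A] [Algebra K A] {B : Type} [Ring B]
  [Algebra K B] {M : Type} [AddCommGroup M] [Module K M] {Γ : Type} [Group Γ]

/-- The part of degree `i` of the tensor product. -/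
def tensDeg (grA : ℕ → Submodule K A) (grM : ℕ → Submodule K M) (i : ℕ) :
    Submodule K (A ⊗[K] M) :=
  Submodule.span K {c | ∃ a b, a + b = i ∧ ∃ x ∈ grA a, ∃ y ∈ grM b, c = x ⊗ₜ[K] y}

/-- The action of `g` on the tensor product. -/
noncomputable def tact (ρ : AlgActs K A Γ) (τ : LinAct K M Γ) (g : Γ) :
    A ⊗[K] M →ₗ[K] A ⊗[K] M :=
  TensorProduct.map ((show Γ →* (A ≃ₐ[K] A) from ρ) g).toLinearMap (τ g)

/-- The sets are stable under sums and under multiplication with rational numbers. -/
structure RatFam (C : Fam K A M) : Prop where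
  zero : ∀ m r, 0 ∈ C m r
  add : ∀ m r, ∀ a ∈ C m r, ∀ b ∈ C m r, a + b ∈ C m r
  smul : ∀ m r, ∀ (q : ℚ), ∀ a ∈ C m r, (q : K) • a ∈ C m r

/-- The properties of the set `H m r` of the rational Hodge classes in degree `m`, twist `r`: they
are in the degree `m` and multiplied by `χ(g)^r`; all classes of degree `m` which are multiplied by
`χ(g)^r` by all `g` in a subgroup of finite index are linear combinations of Hodge classes; and if a
linear combination of Hodge classes is a Hodge class then it is a rational linear combination of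
them. -/
structure IsHodgePart (χ : Chr K Γ) (grA : ℕ → Submodule K A) (grM : ℕ → Submodule K M)
    (ρ : AlgActs K A Γ) (τ : LinAct K M Γ) (H : Fam K A M) : Prop where
  degree : ∀ m r, ∀ c ∈ H m r, c ∈ tensDeg grA grM m
  fixes : ∀ m r, ∀ c ∈ H m r, ∀ g, tact ρ τ g c = ((χ g ^ r : Kˣ) : K) • c
  spans : ∀ m r, ∀ c ∈ tensDeg grA grM m, (∃ Δ : Subgroup Γ, Δ.FiniteIndex ∧
    ∀ g ∈ Δ, tact ρ τ g c = ((χ g ^ r : Kˣ) : K) • c) → c ∈ Submodule.span K (H m r)
  rational : ∀ (m : ℕ) (r : ℤ) (n : ℕ) (v : Fin n → A ⊗[K] M) (c : Fin n → K),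
    (∀ i, v i ∈ H m r) → ∑ i, c i • v i ∈ H m r →
      ∃ q : Fin n → ℚ, ∑ i, c i • v i = ∑ i, (q i : K) • v i

/-- The inclusion of families of subsets. -/
def SubFam (C C' : Fam K A M) : Prop := ∀ m r, C m r ⊆ C' m r

/-- The pull-back by `f` maps `C m r` to `C' m r`. -/
def PullStable (f : B →ₐ[K] A) (C : Fam K B M) (C' : Fam K A M) : Prop :=
  ∀ m r, ∀ c ∈ C m r, f.toLinearMap.rTensor M c ∈ C' m r

/-- The push-forward by `q` maps `C (m + 2 d) (r + d)` to `C' m r`. -/
def PushStable (q : A →ₗ[K] B) (d : ℕ) (C : Fam K A M) (C' : Fam K B M) : Prop :=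
  ∀ m r, ∀ c ∈ C (m + 2 * d) (r + d), q.rTensor M c ∈ C' m r

/-- The products of elements of `S i` and of `C m r` are in `C (m + 2 i) (r + i)`. -/
def MulFam (S : ℕ → Set A) (C : Fam K A M) : Prop :=
  ∀ i m r, ∀ a ∈ S i, ∀ c ∈ C m r, (LinearMap.mulLeft K a).rTensor M c ∈ C (m + 2 * i) (r + i)

/-- Every semi-invariant element is a linear combination of elements of the sets `S j`. -/
def SemiIn [FiniteDimensional K A] (S : ℕ → Set A) (ρ : Γ →* (A ≃ₐ[K] A)) : Prop :=
  ∀ z ∈ semis ρ, z ∈ Submodule.span K (⋃ j, S j)

/-- An element of one of the sets `S i` is zero if the traces of its products with the elements of all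
the sets `S j` are zero. -/
def NondegOn (S : ℕ → Set A) (tr : A →ₗ[K] K) : Prop :=
  ∀ i, ∀ a ∈ S i, (∀ j, ∀ b ∈ S j, tr (a * b) = 0) → a = 0

/-- The representation given by a linear action. -/
def linRep [FiniteDimensional K M] (τ : LinAct K M Γ) : GRep K Γ where
  V := M
  act := τ
  one := fun x => by rw [map_one]; rfl
  mul := fun g h x => by rw [map_mul]; rfl

end Alg

variable {k : Type u} [Field k] {𝒱 : VarClass k} {ops : CycleOps 𝒱}

/-- The cohomology `M` of a smooth variety `U`, with its grading and the action of the group `Γ`, and for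
all smooth projective `V` the Hodge classes `hodge V m r` in `H^m(V × U)(r)` and the image `mot V m r` of
the motivic cohomology `H^m(V × U, ℚ(r))`. -/
structure OpenVar (W : WeilCohomology.{u, 0} ops) (Γ : Type) [Group Γ] where
  /-- the cohomology of `U` -/
  M : Type
  [grp : AddCommGroup M]
  [mod : Module W.K M]
  [fin : Module.Finite W.K M]
  /-- the grading -/
  gr : ℕ → Submodule W.K M
  /-- the action -/
  act : LinAct W.K M Γ
  /-- the Hodge classes -/
  hodge : ∀ V : 𝒱.Obj, Fam W.K (W.H V) M
  /-- the image of motivic cohomology -/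
  mot : ∀ V : 𝒱.Obj, Fam W.K (W.H V) M

attribute [instance] OpenVar.grp OpenVar.mod OpenVar.fin

variable {W : WeilCohomology.{u, 0} ops} {Γ : Type} [Group Γ]

/-- The representation on the cohomology of `U`. -/
def OpenVar.rep (U : OpenVar W Γ) : GRep W.K Γ := linRep U.act

/-- The properties of the image of the motivic cohomology: it consists of Hodge classes, is a rational
subspace, and is compatible with pull-back by morphisms of the projective variety `V`, with the product
with the classes of cycles on `V`, and with push-forward along the projections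
`V × V' × U ⟶ V' × U`. -/
structure IsRegulator (U : OpenVar W Γ) : Prop where
  sub : ∀ V, SubFam (U.mot V) (U.hodge V)
  rat : ∀ V, RatFam (U.mot V)
  pull : ∀ {V V' : 𝒱.Obj} (f : V ⟶ V'), PullStable (W.map f) (U.mot V') (U.mot V)
  mul : ∀ V : 𝒱.Obj, MulFam (algClasses W V) (U.mot V)
  push : ∀ V V' : 𝒱.Obj, PushStable (W.push (snd V V')) V.dim (U.mot (V.prod V')) (U.mot V')

/-- The sets `hodge Y` are the rational Hodge classes on `Y × U` for the action of the group `Γ`. -/
def HodgeFor (χ : Chr W.K Γ) (U : OpenVar W Γ) (Y : GVar W Γ) : Prop :=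
  IsHodgePart χ (W.gr Y.X) U.gr Y.act U.act (U.hodge Y.X)

/-- The regulator is onto the Hodge classes for `V × U`, in all degrees and twists. -/
def OntoHodge (U : OpenVar W Γ) (V : 𝒱.Obj) : Prop := SubFam (U.hodge V) (U.mot V)

/-- The factor `P`: `Γ` preserves the degrees, the trace form (up to the twist), and the classes of
cycles (up to the twist), the semi-invariant classes are combinations of classes of cycles, the class of
a cycle is zero if all its intersection numbers with cycles are zero, and there is a zero-cycle of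
degree different from `0`. -/
structure RegFactor (χ : Chr W.K Γ) (P : GVar W Γ) : Prop where
  galois : IsGaloisAct χ (W.gr P.X) P.X.dim (W.tr P.X) (algClasses W P.X) P.act
  semi : SemiIn (algClasses W P.X) P.act
  num : NondegOn (algClasses W P.X) (W.tr P.X)
  point : HasPoint P

/-- For the products `Y` over `Z` without indices in `E`: the regulator is onto the Hodge classes for
`Y × U` if and only if it is for `Z × U`. -/
def RegReduces (χ : Chr W.K Γ) {ι : Type} (V : ι → GRep W.K Γ) (Z : GVar W Γ)
    (U : OpenVar W Γ) (E : Set ι) : Prop :=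
  ∀ (L : List (ι × GVar W Γ)) (Y : GVar W Γ), Tower V Z L Y →
    (∀ x ∈ L, x.1 ∉ E ∧ RegFactor χ x.2) → HodgeFor χ U Y →
      (OntoHodge U Y.X ↔ OntoHodge U Z.X)

/-- `E M` is the set of the exceptional indices with respect to the representation `M`: it is finite, with
at most `d - d'` elements, where `d` is the dimension of `M` and `d'` is the dimension of the span of
the semi-invariant vectors, and at most `(d - d') / 2` if `M` carries a nondegenerate form which is
invariant up to a character; no `j ≠ i` is exceptional with respect to `V i`; and if the cohomology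
of `Z` is generated by finitely many representations `M a` (for instance by its own cohomology, or by
the empty set of representations if `Z` is a point), then `RegReduces` is true for all `U` and the
union of the sets `E (M a)` and `E (H(U))`. -/
structure RegSets (χ : Chr W.K Γ) {ι : Type} (V : ι → GRep W.K Γ)
    (E : GRep W.K Γ → Set ι) : Prop where
  finite : ∀ M, (E M).Finite
  card : ∀ M, (E M).ncard + (semiSpan M).dim ≤ dim M
  form : ∀ M, (∃ B : Form M, InvForm B) → 2 * (E M).ncard + (semiSpan M).dim ≤ dim M
  self : ∀ i, E (V i) ⊆ {i}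
  reduces : ∀ (m : ℕ) (M : Fin m → GRep W.K Γ) (Z : GVar W Γ) (U : OpenVar W Γ),
    IsRegulator U → HodgeFor χ U Z → GeneratedBy M Z →
      RegReduces χ V Z U ((⋃ a, E (M a)) ∪ E U.rep)

end Pool.Agent.N179.RG
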