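import Pool.Agent.N179.RG.Defs
import Pool.Agent.N179.LG.Fin

/-!
# The regulator onto the Hodge classes and independent families: the theorem
-/

set_option autoImplicit false
set_option linter.unusedSectionVars false

open CategoryTheory AlgebraicGeometry
open scoped TensorProduct

universe u

namespace Pool.Agent.N179.RG

open Module Pool.Agent.TH125.Gal Pool.Agent.N179.GR Pool.Agent.N179.GR.S

open Pool.Agent.H914 Pool.Agent.H914.VarClass Pool.Agent.H914.VarClass.Obj
  Pool.Agent.H914.WeilCohomology Pool.Agent.W552 Pool.Agent.H281R3.HT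

variable {k : Type u} [Field k] {𝒱 : VarClass k} {ops : CycleOps 𝒱}
  {W : WeilCohomology.{u, 0} ops} {Γ : Type} [Group Γ] {χ : Chr W.K Γ}

theorem span_map {N N' : Type} [AddCommGroup N] [Module W.K N] [AddCommGroup N'] [Module W.K N']
    (f : N →ₗ[W.K] N') {C : Set N} {C' : Set N'} (h : ∀ c ∈ C, f c ∈ C') {c : N}
    (hc : c ∈ Submodule.span W.K C) : f c ∈ Submodule.span W.K C' := by
  have h1 : Submodule.span W.K C ≤ (Submodule.span W.K C').comap f :=
    Submodule.span_le.2 fun x hx => Submodule.subset_span (h x hx)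
  exact h1 hc

/-- the object with the spans -/
noncomputable def toLog (U : OpenVar W Γ) (hU : IsRegulator U) : LG.LogVar W Γ where
  M := U.M
  gr := U.gr
  act := U.act
  real V m r := Submodule.span W.K (U.mot V m r)
  pull f m r c hc := span_map ((W.map f).toLinearMap.rTensor U.M) (fun c hc => hU.pull f m r c hc) hc
  mul V i m r a ha c hc := span_map ((LinearMap.mulLeft W.K a).rTensor U.M)
    (fun c hc => hU.mul V i m r a ha c hc) hc
  push V V' m r c hc := span_map ((W.push (snd V V')).rTensor U.M)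
    (fun c hc => hU.push V V' m r c hc) hc

theorem onto_iff (U : OpenVar W Γ) (hU : IsRegulator U) {V : GVar W Γ} (hV : HodgeFor χ U V) :
    OntoHodge U V.X ↔ ∀ t : ℤ, LG.LogTate χ t V (toLog U hU) := by
  constructor
  · intro h t m r _ c hc hg
    have h1 : c ∈ Submodule.span W.K (U.hodge V.X m r) := hV.spans m r c hc hg
    exact Submodule.span_mono (h m r) h1
  · intro h m r v hv
    have h1 : v ∈ Submodule.span W.K (U.mot V.X m r) := h ((m : ℤ) - 2 * r) m r (by ring) v
      (hV.degree m r v hv) ⟨⊤, inferInstance, fun g _ => hV.fixes m r v hv g⟩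
    obtain ⟨n, c, a, ha⟩ := (Submodule.mem_span_set').1 h1
    obtain ⟨q, hq⟩ := hV.rational m r n (fun i => (a i : W.H V.X ⊗[W.K] U.M)) c
      (fun i => hU.sub V.X m r (a i).2) (by rw [ha]; exact hv)
    rw [ha] at hq
    rw [hq]
    have hrat := hU.rat V.X
    clear ha hq
    refine Finset.sum_induction _ (fun x => x ∈ U.mot V.X m r)
      (fun x y hx hy => hrat.add m r x hx y hy) (hrat.zero m r)
      fun i _ => hrat.smul m r _ _ (a i).2

/-- **The theorem.** -/
theorem final (hK : Nonempty (W.K ≃+* ℂ)) {ι : Type} (χ : Chr W.K Γ)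
    {V : ι → GRep W.K Γ} (hV : Family V) :
    ∃ E : GRep W.K Γ → Set ι, RegSets χ V E := by
  obtain ⟨e⟩ := hK
  have halg : IsAlgClosed W.K := IsAlgClosed.of_ringEquiv ℂ W.K e.symm
  refine ⟨Exc V, fun M => (exceptional e hV M).finite, fun M => (exceptional e hV M).card,
    fun M => (exceptional e hV M).card_form, ?_, fun m M Z U hU hUZ hZ L Y hY hL hUY => ?_⟩
  · intro j i hi
    by_contra h
    exact hi (hV.pair h)
  · rw [onto_iff U hU hUY, onto_iff U hU hUZ]
    refine forall_congr' fun t => ?_
    refine LG.tower_log (X := toLog U hU) (U := M) (E := (⋃ a, Exc V (M a)) ∪ Exc V U.rep)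
      (fun i hi a => ?_) (fun i hi => ?_) (fun i _ j _ hij => hV.pair hij.symm) hZ hY ?_
    · by_contra h
      exact hi (Or.inl (Set.mem_iUnion.2 ⟨a, h⟩))
    · by_contra h
      exact hi (Or.inr h)
    · intro x hx
      exact ⟨(hL x hx).1, (hL x hx).2.galois, (hL x hx).2.semi, (hL x hx).2.num,
        (hL x hx).2.point⟩

end Pool.Agent.N179.RG
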